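import Pool.Agent.R318.MB.Inner

/-!
# MP_d967a3_an, Q1: billiard tables in `ℝⁿ`, for every `n ≥ 3`, other than ellipsoids, whose billiard
map has an invariant hypersurface

The definitions used by the statement (`Euc`, `IsTable`, `IsEllipsoid`, `lines`, `lineTangent`,
`lineThrough`, `exitPoint`, `outerNormal`, `billiardMap`, `IsInvariantHypersurface`) are in
`Pool/Agent/H703R3/MBDefs.lean`.

The table is `‖x‖² + x₃⁴ ≤ 1`, and the hypersurface consists of the oriented lines (through the point `x`,
with the unit direction `v`) whose angular momentum `x₁ v₂ - x₂ v₁` is `1/4`.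
-/

set_option autoImplicit false

namespace Pool.Agent.Results.MP_d967a3_an.InnerHypersurface

open Pool.Agent.H703R3.MB

/-- For every `n ≥ 3` there is a billiard table in `ℝⁿ` (a compact convex body with smooth, strictly
convex boundary) that is not an ellipsoid and whose billiard map, on the phase space of the oriented
lines that meet the interior, has an invariant hypersurface. -/
theorem result : ∀ n : ℕ, 3 ≤ n → ∃ Ω : Set (Euc n), IsTable Ω ∧ ¬ IsEllipsoid Ω ∧
    ∃ S : Set (Euc n × Euc n), IsInvariantHypersurface Ω S := Pool.Agent.R318.MB.q1

end Pool.Agent.Results.MP_d967a3_an.InnerHypersurface
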